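import Pool.Agent.H699.T.Base

/-!
# Project TSP, piece MSTLOW: the forest lower bound (for MP_7803ed_lc)
-/

set_option autoImplicit false

namespace Pool.Agent.H331.T.MSTLOW

open Finset Classical Pool.Agent.H699.T

section

variable {α : Type} (d : α → α → ℕ)

/-- Number of consecutive pairs of a list at distance larger than `t`. -/
noncomputable def lg (t : ℕ) : List α → ℕ
  | [] => 0
  | [_] => 0
  | a :: b :: l => (if t < d a b then 1 else 0) + lg t (b :: l)

/-- Length of the walk, as a natural number. -/
noncomputable def wk : List α → ℕ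
  | [] => 0
  | [_] => 0
  | a :: b :: l => d a b + wk (b :: l)

lemma walk_eq : ∀ L : List α, walk (fun x y => (d x y : ℝ)) L = (wk d L : ℝ)
  | [] => by simp [walk, wk]
  | [_] => by simp [walk, wk]
  | a :: b :: l => by
    have ih := walk_eq (b :: l)
    simp only [walk, wk]
    rw [ih]
    push_cast
    rfl

lemma sum_ind (x T : ℕ) : ∑ t ∈ range T, (if t < x then 1 else 0) ≤ x := by
  rw [Finset.sum_boole]
  have h : (range T).filter (fun t => t < x) ⊆ range x := by
    intro t ht
    rw [mem_filter] at ht
    exact mem_range.2 ht.2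
  have := card_le_card h
  rw [card_range] at this
  exact_mod_cast this

lemma sum_ind_eq (x T : ℕ) (h : x ≤ T) : ∑ t ∈ range T, (if t < x then 1 else 0) = x := by
  rw [Finset.sum_boole]
  have h : (range T).filter (fun t => t < x) = range x := by
    ext t
    simp only [mem_filter, mem_range]
    omega
  rw [h, card_range]
  rfl

lemma sum_lg (T : ℕ) : ∀ L : List α, ∑ t ∈ range T, lg d t L ≤ wk d L
  | [] => by simp [lg, wk]
  | [_] => by simp [lg, wk]
  | a :: b :: l => by
    have ih := sum_lg T (b :: l)
    simp only [lg, wk]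
    rw [sum_add_distrib]
    exact Nat.add_le_add (sum_ind (d a b) T) ih

/-- Connection by steps of length at most `t`. -/
def Cn (t : ℕ) (a b : α) : Prop := Relation.ReflTransGen (fun a b => d a b ≤ t) a b

variable {d}

lemma Cn.symm (hs : ∀ x y, d x y = d y x) {t : ℕ} {a b : α} (h : Cn d t a b) : Cn d t b a := by
  unfold Cn at *
  induction h with
  | refl => exact Relation.ReflTransGen.refl
  | tail _ hbc ih =>
    exact Relation.ReflTransGen.head (by rw [hs]; exact hbc) ih

lemma main_count (hs : ∀ x y, d x y = d y x) (t : ℕ) (P : Finset α)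
    (hP : ∀ v ∈ P, ∀ v' ∈ P, v' ≠ v → ¬ Cn d t v v') :
    ∀ (l : List α) (a : α), (P.filter fun v => v ∈ a :: l ∧ ¬ Cn d t a v).card ≤ lg d t (a :: l) := by
  have hone : ∀ b, (P.filter fun v => Cn d t b v).card ≤ 1 := by
    intro b
    rw [card_le_one]
    intro v hv v' hv'
    rw [mem_filter] at hv hv'
    by_contra hne
    exact hP v hv.1 v' hv'.1 (Ne.symm hne) (Relation.ReflTransGen.trans (hv.2.symm hs) hv'.2)
  intro l
  induction l with
  | nil =>
    intro a
    have : (P.filter fun v => v ∈ [a] ∧ ¬ Cn d t a v) = ∅ := by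
      apply filter_eq_empty_iff.2
      rintro v _ ⟨h1, h2⟩
      rw [List.mem_singleton] at h1
      subst h1
      exact h2 Relation.ReflTransGen.refl
    rw [this]
    simp [lg]
  | cons b l ih =>
    intro a
    have hsub : ∀ v, v ∈ a :: b :: l → ¬ Cn d t a v → v ∈ b :: l := by
      intro v hv hn
      rcases List.mem_cons.1 hv with h | h
      · subst h
        exact absurd Relation.ReflTransGen.refl hn
      · exact h
    simp only [lg]
    by_cases hab : t < d a b
    · rw [if_pos hab]
      have h1 : (P.filter fun v => v ∈ a :: b :: l ∧ ¬ Cn d t a v) ⊆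
          (P.filter fun v => Cn d t b v) ∪ (P.filter fun v => v ∈ b :: l ∧ ¬ Cn d t b v) := by
        intro v hv
        rw [mem_filter] at hv
        rw [mem_union, mem_filter, mem_filter]
        by_cases hc : Cn d t b v
        · exact Or.inl ⟨hv.1, hc⟩
        · exact Or.inr ⟨hv.1, hsub v hv.2.1 hv.2.2, hc⟩
      exact (card_le_card h1).trans ((card_union_le _ _).trans (Nat.add_le_add (hone b) (ih b)))
    · rw [if_neg hab, zero_add]
      refine (card_le_card ?_).trans (ih b)
      intro v hv
      rw [mem_filter] at hv ⊢
      refine ⟨hv.1, hsub v hv.2.1 hv.2.2, fun hc => hv.2.2 ?_⟩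
      exact Relation.ReflTransGen.head (not_lt.1 hab) hc

end

theorem t_MSTLOW : S_TSPATT → S_MSTLOW := by
  intro hatt α _ d hd D w r hD
  have hs : ∀ x y, d x y = d y x := by
    intro x y
    have := hd.symm x y
    exact_mod_cast this
  obtain ⟨l, -, hl, hc⟩ := hatt α (fun x y => (d x y : ℝ)) hd univ
  have hmem : ∀ v, v ∈ l := by
    intro v
    rw [← List.mem_toFinset, hl]
    exact mem_univ v
  cases l with
  | nil => exact absurd (hmem r) List.not_mem_nil
  | cons a l =>
    rw [← hc]
    simp only [cyc]
    rw [walk_eq]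
    have hmem' : ∀ v, v ∈ a :: (l ++ [a]) := by
      intro v
      rcases List.mem_cons.1 (hmem v) with h | h
      · rw [h]; exact List.mem_cons_self
      · exact List.mem_cons_of_mem _ (List.mem_append_left _ h)
    -- one threshold
    have key : ∀ t : ℕ, (D.filter fun v => t < w v).card ≤ lg d t (a :: (l ++ [a])) := by
      intro t
      have hr : r ∉ D.filter fun v => t < w v := by
        intro h
        rw [mem_filter] at h
        exact (hD t r h.1 h.2).1 Relation.ReflTransGen.refl
      set P : Finset α := insert r (D.filter fun v => t < w v) with hPdef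
      have hP : ∀ v ∈ P, ∀ v' ∈ P, v' ≠ v → ¬ Cn d t v v' := by
        intro v hv v' hv' hne hcn
        rw [hPdef, mem_insert, mem_filter] at hv hv'
        rcases hv with hv | hv
        · rcases hv' with hv' | hv'
          · exact hne (hv'.trans hv.symm)
          · subst hv
            exact (hD t v' hv'.1 hv'.2).1 (hcn.symm hs)
        · rcases hv' with hv' | hv'
          · subst hv'
            exact (hD t v hv.1 hv.2).1 hcn
          · exact (hD t v hv.1 hv.2).2 v' hv'.1 hne hv'.2 hcn
      have h1 := main_count hs t P hP (l ++ [a]) a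
      have h2 : (P.filter fun v => Cn d t a v).card ≤ 1 := by
        rw [card_le_one]
        intro v hv v' hv'
        rw [mem_filter] at hv hv'
        by_contra hne
        exact hP v hv.1 v' hv'.1 (Ne.symm hne) (Relation.ReflTransGen.trans (hv.2.symm hs) hv'.2)
      have h3 : P ⊆ (P.filter fun v => Cn d t a v) ∪
          (P.filter fun v => v ∈ a :: (l ++ [a]) ∧ ¬ Cn d t a v) := by
        intro v hv
        rw [mem_union, mem_filter, mem_filter]
        by_cases hcn : Cn d t a v
        · exact Or.inl ⟨hv, hcn⟩
        · exact Or.inr ⟨hv, hmem' v, hcn⟩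
      have h4 := (card_le_card h3).trans (card_union_le _ _)
      have h5 : P.card = (D.filter fun v => t < w v).card + 1 := card_insert_of_notMem hr
      omega
    -- sum over the thresholds
    have hsum : ∑ v ∈ D, w v = ∑ t ∈ range (∑ v ∈ D, w v), (D.filter fun v => t < w v).card := by
      have h1 : ∀ v ∈ D, w v = ∑ t ∈ range (∑ v ∈ D, w v), (if t < w v then 1 else 0) := by
        intro v hv
        exact (sum_ind_eq (w v) _ (single_le_sum (f := w) (fun _ _ => Nat.zero_le _) hv)).symm
      calc ∑ v ∈ D, w v = ∑ v ∈ D, ∑ t ∈ range (∑ v ∈ D, w v), (if t < w v then 1 else 0) :=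
            sum_congr rfl h1
        _ = ∑ t ∈ range (∑ v ∈ D, w v), ∑ v ∈ D, (if t < w v then 1 else 0) := sum_comm
        _ = _ := by
            refine sum_congr rfl fun t _ => ?_
            rw [Finset.sum_boole]
            rfl
    have hfin : ∑ v ∈ D, w v ≤ wk d (a :: (l ++ [a])) := by
      rw [hsum]
      exact (sum_le_sum fun t _ => key t).trans (sum_lg d _ _)
    exact_mod_cast hfin

end Pool.Agent.H331.T.MSTLOW
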